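import Mathlib

/-!
# MP_5c307f_lc : amortized pointer changes for flarb operations

We show that `n` flarbs starting from the empty tree may need `Ω(n log n)` pointer changes, so the
amortized number of pointer changes is not `O(1)`.
-/

namespace Pool.Agent.Results.MP_5c307f_lc.FlarbLowerBound

/-- Binary trees. The nodes of a tree are identified with their ranks `0, 1, …, size - 1` in the
in-order traversal. -/
inductive BT
  | leaf
  | node (l r : BT)

open BT

/-- The number of nodes. -/
def size : BT → ℕ
  | leaf => 0
  | node l r => size l + 1 + size r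

/-- The root of a tree whose nodes have the in-order ranks `o, o + 1, …`. -/
def root? (o : ℕ) : BT → Option ℕ
  | leaf => none
  | node l _ => some (o + size l)

/-- The left child of the node `u`, in a tree whose nodes have the in-order ranks `o, o + 1, …`. -/
def lptr : ℕ → BT → ℕ → Option ℕ
  | _, leaf, _ => none
  | o, node l r, u =>
    if u < o + size l then lptr o l u
    else if u = o + size l then root? o l
    else lptr (o + size l + 1) r u

/-- The right child of the node `u`, in a tree whose nodes have the in-order ranks `o, o + 1, …`. -/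
def rptr : ℕ → BT → ℕ → Option ℕ
  | _, leaf, _ => none
  | o, node l r, u =>
    if u < o + size l then rptr o l u
    else if u = o + size l then root? (o + size l + 1) r
    else rptr (o + size l + 1) r u

/-- Anchored subtrees of a binary tree: the empty one, or the root together with an anchored
subtree of the left subtree and an anchored subtree of the right subtree. -/
inductive Anchored : BT → Type
  | empty (T : BT) : Anchored T
  | root {l r : BT} (a : Anchored l) (b : Anchored r) : Anchored (node l r)

/-- The subtrees hanging off an anchored subtree `S` of `T`, from left to right: one for each gap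
between two consecutive nodes of `S` (or before the first one), and the last one, after the last
node of `S`. (A hanging subtree may be empty; for empty `S` the only one is `T` itself.) -/
def gaps : {T : BT} → Anchored T → List BT × BT
  | _, Anchored.empty T => ([], T)
  | _, Anchored.root a b => ((gaps a).1 ++ (gaps a).2 :: (gaps b).1, (gaps b).2)

/-- The tree whose rightmost path has one node for each member of the list, with the member as its
left subtree. -/
def spine : List BT → BT
  | [] => leaf
  | g :: P => node g (spine P)

/-- The flarb of an anchored subtree `S` of `T`: the nodes of `S`, followed by the new node `r`,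
form the rightmost path, in in-order; the hanging subtrees keep their shape and their place in the
in-order (the last one, after all nodes of `S`, is now before the new node `r`, which is the last
node of the new tree). -/
def flarb {T : BT} (S : Anchored T) : BT := spine ((gaps S).1 ++ [(gaps S).2])

/-- The number of pointer changes needed to turn `T` into `T'`: the number of nodes whose left
child changes plus the number of nodes whose right child changes. -/
def cost (T T' : BT) : ℕ :=
  ((Finset.range (size T')).filter fun u => lptr 0 T u ≠ lptr 0 T' u).card +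
  ((Finset.range (size T')).filter fun u => rptr 0 T u ≠ rptr 0 T' u).card

/-- `Run n T c`: some sequence of `n` flarbs leads from the empty tree to `T` at total cost `c`. -/
inductive Run : ℕ → BT → ℕ → Prop
  | start : Run 0 leaf 0
  | step {n : ℕ} {T : BT} {c : ℕ} (h : Run n T c) (S : Anchored T) :
      Run (n + 1) (flarb S) (c + cost T (flarb S))

/-! ### Sizes -/

theorem size_spine_append (P Q : List BT) : size (spine (P ++ Q)) = size (spine P) + size (spine Q) := by
  induction P with
  | nil => simp [spine, size]
  | cons g P ih => simp only [List.cons_append, spine, size, ih]; omega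

theorem size_gaps {T : BT} (S : Anchored T) :
    size (spine (gaps S).1) + size (gaps S).2 = size T := by
  induction S with
  | empty T => simp [gaps, spine, size]
  | root a b iha ihb =>
    simp only [gaps, size_spine_append, spine, size] at *
    omega

/-- A flarb adds one node. -/
theorem size_flarb {T : BT} (S : Anchored T) : size (flarb S) = size T + 1 := by
  have := size_gaps S
  simp only [flarb, size_spine_append, spine, size]
  omega

theorem run_size {n : ℕ} {T : BT} {c : ℕ} (h : Run n T c) : size T = n := by
  induction h with
  | start => rfl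
  | step _ S ih => rw [size_flarb, ih]

/-! ### Exploding lists of trees -/

/-- `Ex T L g`: some anchored subtree of `T` has the hanging subtrees `L`, and `g` as the last. -/
def Ex (T : BT) (L : List BT) (g : BT) : Prop := ∃ S : Anchored T, gaps S = (L, g)

theorem Ex.refl (T : BT) : Ex T [] T := ⟨Anchored.empty T, rfl⟩

theorem Ex.node {l r : BT} {L M : List BT} {g h : BT} (h1 : Ex l L g) (h2 : Ex r M h) :
    Ex (node l r) (L ++ g :: M) h := by
  obtain ⟨a, ha⟩ := h1
  obtain ⟨b, hb⟩ := h2
  exact ⟨Anchored.root a b, by simp [gaps, ha, hb]⟩

/-- `Exp P P'`: opening some of the nodes of the path `spine P` (all its nodes being in the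
anchored subtree) gives the path `spine P'`. -/
inductive Exp : List BT → List BT → Prop
  | nil : Exp [] []
  | cons {g g' : BT} {L P P' : List BT} (h : Ex g L g') (h' : Exp P P') :
      Exp (g :: P) (L ++ g' :: P')

theorem Exp.ex {P P' : List BT} (h : Exp P P') (Q : List BT) :
    Ex (spine (P ++ Q)) P' (spine Q) := by
  induction h with
  | nil => exact Ex.refl _
  | cons h _ ih => exact Ex.node h ih

theorem Exp.refl (P : List BT) : Exp P P := by
  induction P with
  | nil => exact Exp.nil
  | cons g P ih => exact Exp.cons (Ex.refl g) ih

theorem Exp.append {P P' Q Q' : List BT} (h : Exp P P') (h' : Exp Q Q') :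
    Exp (P ++ Q) (P' ++ Q') := by
  induction h with
  | nil => exact h'
  | cons h _ ih =>
    rw [List.cons_append, List.append_assoc, List.cons_append]
    exact Exp.cons h ih

theorem Exp.size {P P' : List BT} (h : Exp P P') : size (spine P) = size (spine P') := by
  obtain ⟨S, hS⟩ := h.ex []
  have := size_gaps S
  rw [hS] at this
  simp only [List.append_nil, spine] at this
  simpa [FlarbLowerBound.size] using this.symm

/-! ### Right pointers in `spine (P ++ Q)` -/

theorem rptr_append_ge (P Q : List BT) :
    ∀ o u, o + size (spine P) ≤ u → rptr o (spine (P ++ Q)) u = rptr (o + size (spine P)) (spine Q) u := by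
  induction P with
  | nil => intro o u _; simp [spine, size]
  | cons g P ih =>
    intro o u hu
    simp only [spine, size] at hu
    have h1 : ¬ u < o + size g := by omega
    have h2 : ¬ u = o + size g := by omega
    simp only [List.cons_append, spine, rptr, h1, h2, if_false]
    rw [ih _ _ (by omega)]
    congr 1
    simp only [size]; omega

/-- The path with `a` nodes. -/
def path (a : ℕ) : BT := spine (List.replicate a leaf)

theorem size_path (a : ℕ) : size (path a) = a := by
  induction a with
  | zero => rfl
  | succ a ih =>
    simp only [path] at ih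
    simp only [path, List.replicate_succ, spine, size, ih]; omega

/-- Right pointer of the first child of a closed wrapper. -/
theorem rptr_closed (a : ℕ) (o : ℕ) (Q : List BT) :
    rptr o (spine (path (a + 1) :: Q)) o = if a = 0 then none else some (o + 1) := by
  have h : o < o + size (path (a + 1)) := by rw [size_path]; omega
  simp only [spine, rptr, h, if_true]
  simp only [path, List.replicate_succ, spine, rptr, size, Nat.add_zero, lt_irrefl, if_false,
    if_true]
  cases a with
  | zero => simp [spine, root?]
  | succ a => simp [List.replicate_succ, spine, root?, size]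

/-- Right pointer of the same node after it has been taken out of the wrapper. -/
theorem rptr_open (a : ℕ) (o : ℕ) (Q : List BT) :
    rptr o (spine (leaf :: path a :: Q)) o = some (o + 1 + a) := by
  simp [spine, rptr, size, root?, size_path]

/-! ### One step -/

/-- The nodes of `U` change their right pointers in every step in which the path `spine P` is
opened to `spine P'`. -/
def Robust (P P' : List BT) (U : Finset ℕ) : Prop :=
  ∀ u ∈ U, u < size (spine P) ∧
    ∀ Q Q' : List BT, rptr 0 (spine (P ++ Q)) u ≠ rptr 0 (spine (P' ++ Q')) u

theorem step {P P' Q : List BT} {n c d : ℕ} (h : Exp P P') {U : Finset ℕ} (hU : Robust P P' U)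
    (hd : U.card = d) (hr : Run n (spine (P ++ Q)) c) :
    ∃ c' ≥ c + d, Run (n + 1) (spine (P' ++ [spine Q])) c' := by
  obtain ⟨S, hS⟩ := h.ex Q
  have hfl : flarb S = spine (P' ++ [spine Q]) := by rw [flarb, hS]
  have hrun := Run.step hr S
  rw [hfl] at hrun
  refine ⟨_, ?_, hrun⟩
  apply Nat.add_le_add_left
  rw [← hd]
  refine le_trans (Finset.card_le_card ?_) (Nat.le_add_left _ _)
  intro u hu
  obtain ⟨h1, h2⟩ := hU u hu
  rw [Finset.mem_filter, Finset.mem_range]
  refine ⟨?_, h2 _ _⟩
  rw [size_spine_append, ← h.size]
  omega

/-! ### The recursive construction -/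

/-- The number of openings made by the construction with `2 ^ k - 1` flarbs. -/
def f : ℕ → ℕ
  | 0 => 0
  | k + 1 => 2 * f k + (2 ^ k - 1)

theorem replicate_concat (m : ℕ) (x : BT) :
    List.replicate m x ++ x :: List.replicate m x = List.replicate (2 * m + 1) x := by
  rw [← List.replicate_succ, List.replicate_append_replicate]
  congr 1
  omega

theorem construction (k : ℕ) :
    ∀ (P : ℕ → List BT) (U : ℕ → Finset ℕ) (d : ℕ → ℕ),
      (∀ j < 2 ^ k - 1, Exp (P j) (P (j + 1)) ∧ Robust (P j) (P (j + 1)) (U j) ∧
        (U j).card = d j) →
      ∀ n c, Run n (spine (P 0)) c →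
        ∃ c' ≥ c + (∑ j ∈ Finset.range (2 ^ k - 1), d j) + f k,
          Run (n + (2 ^ k - 1)) (spine (P (2 ^ k - 1) ++ List.replicate (2 ^ k - 1) leaf)) c' := by
  induction k with
  | zero =>
    intro P U d _ n c hr
    exact ⟨c, by simp [f], by simpa using hr⟩
  | succ k ih =>
    intro P U d h n c hr
    set m := 2 ^ k - 1 with hm
    have hm' : 2 ^ (k + 1) - 1 = 2 * m + 1 := by
      have : 1 ≤ 2 ^ k := Nat.one_le_two_pow
      rw [pow_succ]; omega
    rw [hm'] at h ⊢
    -- first half
    obtain ⟨c1, hc1, hr1⟩ := ih P U d (fun j hj => h j (by omega)) n c hr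
    -- the wrapping step
    obtain ⟨he, hU, hd⟩ := h m (by omega)
    obtain ⟨c2, hc2, hr2⟩ := step he hU hd hr1
    -- second half
    set P' : ℕ → List BT := fun j =>
      P (m + 1 + j) ++ (List.replicate j leaf ++ [path (m - j)]) with hP'
    set U' : ℕ → Finset ℕ := fun j =>
      insert (size (spine (P (m + 1 + j))) + j) (U (m + 1 + j)) with hU'
    have hrep : ∀ j, size (spine (List.replicate j leaf)) = j := fun j => size_path j
    have h' : ∀ j < m, Exp (P' j) (P' (j + 1)) ∧ Robust (P' j) (P' (j + 1)) (U' j) ∧
        (U' j).card = d (m + 1 + j) + 1 := by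
      intro j hj
      obtain ⟨he', hU'', hd'⟩ := h (m + 1 + j) (by omega)
      obtain ⟨a, ha⟩ : ∃ a, m - j = a + 1 := ⟨m - j - 1, by omega⟩
      have ha' : m - (j + 1) = a := by omega
      have e1 : P' j = P (m + 1 + j) ++ (List.replicate j leaf ++ [path (a + 1)]) := by
        rw [hP']; simp only [ha]
      have e2 : P' (j + 1) = P (m + 1 + j + 1) ++ (List.replicate j leaf ++ [leaf, path a]) := by
        rw [hP']; simp only [ha']
        rw [List.replicate_succ', List.append_assoc]; rfl
      have hsz := he'.size
      refine ⟨?_, ?_, ?_⟩
      · rw [e1, e2]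
        refine he'.append (Exp.append (Exp.refl _) ?_)
        have : Exp [path (a + 1)] ([leaf] ++ path a :: []) := by
          refine Exp.cons ?_ Exp.nil
          have h1 : Ex (path (a + 1)) ([] ++ leaf :: []) (path a) :=
            Ex.node (Ex.refl leaf) (Ex.refl (path a))
          exact h1
        exact this
      · intro u hu
        rw [hU', Finset.mem_insert] at hu
        rcases hu with rfl | hu
        · refine ⟨?_, ?_⟩
          · rw [e1, size_spine_append, size_spine_append, hrep]
            simp only [spine, size, size_path]; omega
          · intro Q Q'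
            have f1 : rptr 0 (spine (P' j ++ Q)) (size (spine (P (m + 1 + j))) + j)
                = if a = 0 then none else some (size (spine (P (m + 1 + j))) + j + 1) := by
              rw [e1, List.append_assoc, rptr_append_ge _ _ _ _ (by omega), List.append_assoc,
                rptr_append_ge _ _ _ _ (by rw [hrep]; omega), hrep, Nat.zero_add]
              exact rptr_closed a _ Q
            have f2 : rptr 0 (spine (P' (j + 1) ++ Q')) (size (spine (P (m + 1 + j))) + j)
                = some (size (spine (P (m + 1 + j))) + j + 1 + a) := by
              rw [e2, List.append_assoc, rptr_append_ge _ _ _ _ (by omega), List.append_assoc,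
                rptr_append_ge _ _ _ _ (by rw [hrep]; omega), hrep, Nat.zero_add, ← hsz]
              exact rptr_open a _ Q'
            rw [f1, f2]
            rcases Nat.eq_zero_or_pos a with h0 | h0
            · simp [h0]
            · have : a ≠ 0 := by omega
              simp only [this, if_false]
              intro hcon
              have := Option.some.inj hcon
              omega
        · obtain ⟨h3, h4⟩ := hU'' u hu
          refine ⟨?_, ?_⟩
          · rw [e1, size_spine_append]; omega
          · intro Q Q'
            rw [e1, e2, List.append_assoc, List.append_assoc (P (m + 1 + j + 1))]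
            exact h4 _ _
      · have hn : size (spine (P (m + 1 + j))) + j ∉ U (m + 1 + j) := by
          intro hcon
          have := (hU'' _ hcon).1
          omega
        rw [hU', Finset.card_insert_of_notMem hn, hd']
    have hr2' : Run (n + m + 1) (spine (P' 0)) c2 := by
      have : P' 0 = P (m + 1) ++ [spine (List.replicate m leaf)] := by
        rw [hP']; simp [path]
      rw [this]; exact hr2
    obtain ⟨c3, hc3, hr3⟩ := ih P' U' (fun j => d (m + 1 + j) + 1) h' (n + m + 1) c2 hr2'
    refine ⟨c3, ?_, ?_⟩
    · have hsum : ∑ j ∈ Finset.range (2 * m + 1), d j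
          = ∑ j ∈ Finset.range m, d j + d m + ∑ j ∈ Finset.range m, d (m + 1 + j) := by
        have : 2 * m + 1 = (m + 1) + m := by omega
        rw [this, Finset.sum_range_add, Finset.sum_range_succ]
      have hsum2 : ∑ j ∈ Finset.range m, (d (m + 1 + j) + 1)
          = ∑ j ∈ Finset.range m, d (m + 1 + j) + m := by
        rw [Finset.sum_add_distrib]; simp
      rw [hsum2] at hc3
      rw [hsum]
      simp only [f]
      omega
    · have e3 : n + (2 * m + 1) = n + m + 1 + m := by omega
      have e4 : P' m ++ List.replicate m leaf = P (2 * m + 1) ++ List.replicate (2 * m + 1) leaf := by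
        have : m + 1 + m = 2 * m + 1 := by omega
        rw [hP']; simp only [Nat.sub_self, this]
        rw [List.append_assoc, List.append_assoc, ← replicate_concat m leaf]
        rfl
      rw [e3, ← e4]
      exact hr3

theorem f_eq (k : ℕ) : 2 * f k + 2 ^ (k + 1) = k * 2 ^ k + 2 := by
  induction k with
  | zero => simp [f]
  | succ k ih =>
    have h1 : 1 ≤ 2 ^ k := Nat.one_le_two_pow
    have e1 : 2 ^ (k + 1) = 2 * 2 ^ k := by ring
    have e2 : 2 ^ (k + 1 + 1) = 4 * 2 ^ k := by ring
    rw [e1] at ih
    rw [e2, e1]
    simp only [f]
    obtain ⟨p, hp⟩ : ∃ p, 2 ^ k = p + 1 := ⟨2 ^ k - 1, by omega⟩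
    rw [hp] at ih ⊢
    simp only [Nat.add_sub_cancel]
    nlinarith

/-- `2 ^ k - 1` flarbs may cost `(k - 2) * 2 ^ (k - 1) + 1` pointer changes. -/
theorem lower (k : ℕ) :
    ∃ T c, Run (2 ^ k - 1) T c ∧ k * 2 ^ k + 2 ≤ 2 * c + 2 ^ (k + 1) := by
  obtain ⟨c, hc, hr⟩ := construction k (fun _ => []) (fun _ => ∅) (fun _ => 0)
    (fun j _ => ⟨Exp.nil, fun u hu => by simp at hu, rfl⟩) 0 0 Run.start
  refine ⟨_, c, by simpa using hr, ?_⟩
  have := f_eq k
  simp at hc
  omega

/-- **Q1 of MP_5c307f_lc**: the statement is false. For every constant `C` some sequence of `n`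
flarbs from the empty tree needs more than `C * n` pointer changes; more precisely, for
`n = 2 ^ k - 1` some sequence of `n` flarbs needs at least `(k - 2) * 2 ^ (k - 1) + 1` of them. -/
theorem result :
    (∀ C : ℝ, ∃ n T c, Run n T c ∧ C * n < c) ∧
    (∀ k : ℕ, ∃ T c, Run (2 ^ k - 1) T c ∧ k * 2 ^ k + 2 ≤ 2 * c + 2 ^ (k + 1)) := by
  refine ⟨?_, lower⟩
  intro C
  obtain ⟨D, hD⟩ := exists_nat_ge C
  obtain ⟨T, c, hr, hc⟩ := lower (2 * D + 2)
  refine ⟨_, T, c, hr, ?_⟩
  have h1 : 1 ≤ 2 ^ (2 * D + 2) := Nat.one_le_two_pow
  have h2 : D * (2 ^ (2 * D + 2) - 1) < c := by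
    obtain ⟨p, hp⟩ : ∃ p, 2 ^ (2 * D + 2) = p + 1 := ⟨2 ^ (2 * D + 2) - 1, by omega⟩
    rw [pow_succ 2 (2 * D + 2), hp] at hc
    rw [hp]
    simp only [Nat.add_sub_cancel]
    nlinarith
  have h3 : (D : ℝ) * ((2 ^ (2 * D + 2) - 1 : ℕ) : ℝ) < c := by exact_mod_cast h2
  have h4 : C * ((2 ^ (2 * D + 2) - 1 : ℕ) : ℝ) ≤ (D : ℝ) * ((2 ^ (2 * D + 2) - 1 : ℕ) : ℝ) :=
    mul_le_mul_of_nonneg_right hD (Nat.cast_nonneg _)
  linarith

end Pool.Agent.Results.MP_5c307f_lc.FlarbLowerBound
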